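import Mathlib
import Pool.Agent.Helper747.PLF

set_option autoImplicit false

namespace Pool.Agent.Results.MP_60be70_gt.AllPairs

/-- For all `1 ≤ k ≤ m ≤ ω` there is a regular Hausdorff space `X` such that, for every positive
integer `n`, the power `X^n` is paracompact iff `n < m`, and is Lindelöf iff `n < k`. -/
theorem result (k m : ℕ∞) (hk : 1 ≤ k) (hkm : k ≤ m) :
    ∃ (X : Type) (_ : TopologicalSpace X), T3Space X ∧ ∀ n : ℕ, 1 ≤ n →
      (ParacompactSpace (Fin n → X) ↔ (n : ℕ∞) < m) ∧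
      (LindelofSpace (Fin n → X) ↔ (n : ℕ∞) < k) :=
  Pool.Agent.Helper747.PL.main k m hk hkm

end Pool.Agent.Results.MP_60be70_gt.AllPairs
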